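import Pool.Agent.Helper57.SI.Stmts

/-! Row FJ0 (second copy): the Fejér kernel is nonnegative. -/

set_option autoImplicit false

namespace Pool.Agent.Helper18.SI

open Pool.Agent.Helper57.SI

lemma fj0_succ (n : ℕ) (g : ℤ → ℝ) :
    ∑ k ∈ Finset.Icc (-((n + 1 : ℕ) : ℤ)) ((n + 1 : ℕ) : ℤ), g k =
      ∑ k ∈ Finset.Icc (-(n : ℤ)) (n : ℤ), g k + g ((n : ℤ) + 1) + g (-((n : ℤ) + 1)) := by
  have h : Finset.Icc (-((n + 1 : ℕ) : ℤ)) ((n + 1 : ℕ) : ℤ) =
      insert ((n : ℤ) + 1) (insert (-((n : ℤ) + 1)) (Finset.Icc (-(n : ℤ)) (n : ℤ))) := by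
    ext k
    simp only [Finset.mem_Icc, Finset.mem_insert]
    push_cast
    omega
  rw [h, Finset.sum_insert, Finset.sum_insert]
  · ring
  · rw [Finset.mem_Icc]; omega
  · rw [Finset.mem_insert, Finset.mem_Icc]; omega

lemma fj0_S (n : ℕ) (x : ℝ) :
    ∑ k ∈ Finset.Icc (-(n : ℤ)) (n : ℤ), Real.cos ((k : ℝ) * x) =
      1 + 2 * ∑ j ∈ Finset.range n, Real.cos (((j : ℝ) + 1) * x) := by
  induction n with
  | zero => simp
  | succ n ih =>
    rw [fj0_succ n (fun k => Real.cos ((k : ℝ) * x)), ih, Finset.sum_range_succ]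
    push_cast
    rw [show (-((n : ℝ) + 1)) * x = -(((n : ℝ) + 1) * x) by ring, Real.cos_neg]
    ring

lemma fj0_G (n : ℕ) (x : ℝ) :
    ∑ k ∈ Finset.Icc (-(n : ℤ)) (n : ℤ), ((n : ℝ) - |(k : ℝ)|) * Real.cos ((k : ℝ) * x) =
      (∑ j ∈ Finset.range n, Real.cos ((j : ℝ) * x)) ^ 2 +
      (∑ j ∈ Finset.range n, Real.sin ((j : ℝ) * x)) ^ 2 := by
  induction n with
  | zero => simp
  | succ n ih =>
    rw [fj0_succ n (fun k => (((n + 1 : ℕ) : ℝ) - |(k : ℝ)|) * Real.cos ((k : ℝ) * x))]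
    have h1 : ∑ k ∈ Finset.Icc (-(n : ℤ)) (n : ℤ),
        (((n + 1 : ℕ) : ℝ) - |(k : ℝ)|) * Real.cos ((k : ℝ) * x) =
        ∑ k ∈ Finset.Icc (-(n : ℤ)) (n : ℤ), ((n : ℝ) - |(k : ℝ)|) * Real.cos ((k : ℝ) * x) +
        ∑ k ∈ Finset.Icc (-(n : ℤ)) (n : ℤ), Real.cos ((k : ℝ) * x) := by
      rw [← Finset.sum_add_distrib]
      refine Finset.sum_congr rfl fun k _ => ?_
      push_cast
      ring
    have h2 : (((n + 1 : ℕ) : ℝ) - |((((n : ℤ) + 1 : ℤ)) : ℝ)|) *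
        Real.cos ((((n : ℤ) + 1 : ℤ) : ℝ) * x) = 0 := by
      push_cast
      rw [abs_of_nonneg (by positivity)]
      ring
    have h3 : (((n + 1 : ℕ) : ℝ) - |((-((n : ℤ) + 1) : ℤ) : ℝ)|) *
        Real.cos (((-((n : ℤ) + 1) : ℤ) : ℝ) * x) = 0 := by
      push_cast
      rw [abs_neg, abs_of_nonneg (by positivity)]
      ring
    rw [h1, h2, h3, ih, fj0_S, Finset.sum_range_succ, Finset.sum_range_succ]
    have h4 : ∑ j ∈ Finset.range n, Real.cos (((j : ℝ) + 1) * x) =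
        ∑ j ∈ Finset.range n, Real.cos (((n : ℝ) - j) * x) := by
      rw [← Finset.sum_range_reflect]
      refine Finset.sum_congr rfl fun j hj => ?_
      rw [Finset.mem_range] at hj
      congr 2
      rw [show n - 1 - j = n - (j + 1) by omega, Nat.cast_sub (by omega)]
      push_cast
      ring
    have h5 : ∑ j ∈ Finset.range n, Real.cos (((n : ℝ) - j) * x) =
        (∑ j ∈ Finset.range n, Real.cos ((j : ℝ) * x)) * Real.cos ((n : ℝ) * x) +
        (∑ j ∈ Finset.range n, Real.sin ((j : ℝ) * x)) * Real.sin ((n : ℝ) * x) := by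
      rw [Finset.sum_mul, Finset.sum_mul, ← Finset.sum_add_distrib]
      refine Finset.sum_congr rfl fun j _ => ?_
      rw [sub_mul, Real.cos_sub]
      ring
    rw [h4, h5]
    have h6 := Real.sin_sq_add_cos_sq ((n : ℝ) * x)
    nlinarith

theorem st_FJ0 : ST_FJ0 := by
  intro K x hK
  have hKr : (0 : ℝ) < K := by exact_mod_cast hK
  have h1 : (K : ℝ) * fej K x =
      ∑ k ∈ Finset.Icc (-(K : ℤ)) (K : ℤ), ((K : ℝ) - |(k : ℝ)|) * Real.cos ((k : ℝ) * x) := by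
    unfold fej
    rw [Finset.mul_sum]
    refine Finset.sum_congr rfl fun k _ => ?_
    field_simp
  have h2 : 0 ≤ (K : ℝ) * fej K x := by
    rw [h1, fj0_G]
    positivity
  exact nonneg_of_mul_nonneg_right h2 hKr

end Pool.Agent.Helper18.SI
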